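import Pool.Agent.W_06f097_h35.RK

/-! MP_06f097_an, Q1: `A_exp(G)` is holomorphically reflexive for every compactly generated complex
Lie group `G`. The definitions are in `Pool.Agent.W_06f097_h43.Public` (weights, `O_exp(G)`),
`Pool.Agent.W_06f097_h35.RD` (topologies, Arens-Michael envelopes) and
`Pool.Agent.W_06f097_h35.RPub` (strong duals, convolution, holomorphic reflexivity). -/

open scoped Manifold ContDiff
open HolRefl

/-- For every compactly generated complex Lie group `G` the Hopf algebra `A_exp(G)` is
holomorphically reflexive. -/
theorem Pool.Agent.Results.MP_06f097_an.HolomorphicReflexivity.result.{u, w, v}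
    {E : Type u} [NormedAddCommGroup E] [NormedSpace ℂ E] [FiniteDimensional ℂ E]
    {G : Type w} [TopologicalSpace G] [ChartedSpace E G] [Group G] [LieGroup 𝓘(ℂ, E) ω G]
    [T2Space G] (hcg : CompactlyGenerated G) : HolReflexive.{u, w, v} E G :=
  Pf.hol_reflexive hcg
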